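import Pool.Agent.K1H15.C4.Betti
import Pool.Agent.K1H15.C4.Coho

/-! A compactification of `ℂ ^ 4` with second Betti number `1` and fourth Betti number `4`. -/

set_option autoImplicit false

namespace Pool.Agent.Results.MP_7c5836_ag.BettiFour

open scoped Topology ContDiff Manifold

/-- `A` is a closed analytic subset of the complex manifold `V`: it is closed, and near every point
of `V` it is the common zero set of finitely many holomorphic functions -/
def IsAnalyticSubset (n : ℕ) (V : Type) [TopologicalSpace V] [ChartedSpace (Fin n → ℂ) V]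
    (A : Set V) : Prop :=
  IsClosed A ∧ ∀ x : V, ∃ U : Set V, IsOpen U ∧ x ∈ U ∧ ∃ (k : ℕ) (F : Fin k → V → ℂ),
    (∀ i, ContMDiffOn 𝓘(ℂ, Fin n → ℂ) 𝓘(ℂ, ℂ) ω (F i) U) ∧ A ∩ U = {y | y ∈ U ∧ ∀ i, F i y = 0}

/-- `(V, A)` is a compactification of `ℂ ^ n` -/
structure IsCompactification (n : ℕ) (V : Type) [TopologicalSpace V]
    [ChartedSpace (Fin n → ℂ) V] (A : Set V) : Prop where
  isManifold : IsManifold 𝓘(ℂ, Fin n → ℂ) ω V
  t2Space : T2Space V
  compactSpace : CompactSpace V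
  connectedSpace : ConnectedSpace V
  isAnalyticSubset : IsAnalyticSubset n V A
  biholomorphism : ∃ (f : (Fin n → ℂ) → V) (g : V → (Fin n → ℂ)),
    ContMDiff 𝓘(ℂ, Fin n → ℂ) 𝓘(ℂ, Fin n → ℂ) ω f ∧
    ContMDiffOn 𝓘(ℂ, Fin n → ℂ) 𝓘(ℂ, Fin n → ℂ) ω g Aᶜ ∧
    (∀ c, f c ∈ Aᶜ) ∧ (∀ c, g (f c) = c) ∧ ∀ x ∈ Aᶜ, f (g x) = x

/-- the Betti numbers: dimensions of the singular cohomology with rational coefficients -/
noncomputable def betti (V : Type) [TopologicalSpace V] (k : ℕ) : ℕ :=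
  Module.finrank ℚ (Pool.Agent.K1H15.C4.Coh V k)

open Pool.Agent.K1H15.C4 in
/-- There is a compactification of `ℂ ^ 4` with `b₂ = 1` and `b₄ = 4`. -/
theorem result : ∃ (V : Type) (_ : TopologicalSpace V) (_ : ChartedSpace (Fin 4 → ℂ) V)
    (A : Set V), IsCompactification 4 V A ∧ betti V 2 = 1 ∧ betti V 4 = 4 := by
  refine ⟨V, inferInstance, inferInstance, AA, ?_, ?_, ?_⟩
  · refine ⟨inferInstance, inferInstance, inferInstance, inferInstance, ?_, ?_⟩
    · refine ⟨AA_closed, fun x => ?_⟩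
      obtain ⟨U, hU, hx, F, hF, h⟩ := AA_local x
      refine ⟨U, hU, hx, 1, fun _ => F, fun _ => hF, ?_⟩
      rw [h]
      ext y
      exact ⟨fun h => ⟨h.1, fun _ => h.2⟩, fun h => ⟨h.1, h.2 0⟩⟩
    · refine ⟨chp.par, chp.co, par_contMDiff, co_contMDiffOn, fun c => ?_, fun c => ?_,
        fun x hx => ?_⟩
      · exact par_mem_AA c
      · exact co_par_AA c
      · exact par_co_AA x hx
  · exact finrank_Coh St_V.h2
  · exact finrank_Coh St_V.h4

end Pool.Agent.Results.MP_7c5836_ag.BettiFour
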